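import Mathlib

/-!
# Two inequivalent extreme subsets of the cyclic group of order 127

Two perfect sequences with entries `0, 1, -1` of period 127 and with 64 nonzero entries (they come
from the cross correlation of the binary sequence of maximal length with its decimations by 3 and
by 23). The support of the first one is a difference set, the support of the second one is not, so
that the two supports, both extreme, are not equivalent.
-/

set_option autoImplicit false

namespace Pool.Agent.Results.MP_6d480e_an.Mersenne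

/-- Convolution of two complex measures on a finite abelian group, given by their weights. -/
noncomputable def conv {G : Type} [AddCommGroup G] [Fintype G] (μ ν : G → ℂ) (s : G) : ℂ :=
  ∑ x : G, μ x * ν (s - x)

/-- The adjoint measure: the weight at `x` is the complex conjugate of the weight at `-x`. -/
noncomputable def adj {G : Type} [AddCommGroup G] (μ : G → ℂ) (x : G) : ℂ :=
  (starRingEnd ℂ) (μ (-x))

/-- The nonempty set `E` is extreme: it carries a measure with weights of modulus one on `E`, zero
off `E`, and `μ * adj μ = |E| δ₀`. -/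
def IsExtreme {G : Type} [AddCommGroup G] [Fintype G] [DecidableEq G] (E : Finset G) : Prop :=
  E.Nonempty ∧ ∃ c : G → ℂ, (∀ x ∈ E, ‖c x‖ = 1) ∧ (∀ x, x ∉ E → c x = 0) ∧
    ∀ s : G, conv c (adj c) s = if s = 0 then (E.card : ℂ) else 0

/-- Equivalence of subsets of `ℤ/p`, for a prime `p`: `F = a E + b` with `a ≠ 0`. -/
def Equivalent {p : ℕ} (E F : Finset (ZMod p)) : Prop :=
  ∃ a b : ZMod p, a ≠ 0 ∧ F = E.image (fun x => a * x + b)

/-- An integer sequence on `ℤ/127` given by the bit masks of its values `1` and `-1`. -/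
def sq (P M : ℕ) (x : ZMod 127) : ℤ :=
  (P.testBit x.val).toNat - (M.testBit x.val).toNat

def P3 : ℕ := 144395443378137741935860105331066560641
def M3 : ℕ := 23967983297652233738373723793576689664
def P23 : ℕ := 25307595253328836530604980288239010071
def M23 : ℕ := 5838254879836793180944993298070110208

def supp (P M : ℕ) : Finset (ZMod 127) := Finset.univ.filter fun x => sq P M x ≠ 0

set_option maxRecDepth 100000 in
lemma auto3 : ∀ s : ZMod 127, (∑ x : ZMod 127, sq P3 M3 (x + s) * sq P3 M3 x) =
    if s = 0 then 64 else 0 := by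
  decide +kernel

set_option maxRecDepth 100000 in
lemma auto23 : ∀ s : ZMod 127, (∑ x : ZMod 127, sq P23 M23 (x + s) * sq P23 M23 x) =
    if s = 0 then 64 else 0 := by
  decide +kernel

lemma vals3 : ∀ x : ZMod 127, sq P3 M3 x = 0 ∨ sq P3 M3 x = 1 ∨ sq P3 M3 x = -1 := by
  decide +kernel

lemma vals23 : ∀ x : ZMod 127, sq P23 M23 x = 0 ∨ sq P23 M23 x = 1 ∨ sq P23 M23 x = -1 := by
  decide +kernel

lemma card3 : (supp P3 M3).card = 64 := by decide +kernel

lemma card23 : (supp P23 M23).card = 64 := by decide +kernel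

set_option maxRecDepth 100000 in
lemma diff3' : ∀ t : ZMod 127, t ≠ 0 →
    (∑ x : ZMod 127, (sq P3 M3 x * sq P3 M3 (x + t)) ^ 2) = 32 := by decide +kernel

set_option maxRecDepth 100000 in
lemma diff23' : (∑ x : ZMod 127, (sq P23 M23 x * sq P23 M23 (x + 3)) ^ 2) = 28 := by
  decide +kernel

lemma cnt_eq (P M : ℕ) (hv : ∀ x : ZMod 127, sq P M x = 0 ∨ sq P M x = 1 ∨ sq P M x = -1)
    (t : ZMod 127) : (((supp P M).filter fun x => x + t ∈ supp P M).card : ℤ) =
      ∑ x : ZMod 127, (sq P M x * sq P M (x + t)) ^ 2 := by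
  unfold supp
  rw [Finset.filter_filter, Finset.card_filter]
  push_cast
  refine Finset.sum_congr rfl fun x _ => ?_
  simp only [Finset.mem_filter, Finset.mem_univ, true_and]
  rcases hv x with h | h | h <;> rcases hv (x + t) with h' | h' | h' <;> simp [h, h']

lemma diff3 (t : ZMod 127) (ht : t ≠ 0) :
    ((supp P3 M3).filter fun x => x + t ∈ supp P3 M3).card = 32 := by
  have h := cnt_eq P3 M3 vals3 t
  rw [diff3' t ht] at h
  exact_mod_cast h

lemma diff23 : ((supp P23 M23).filter fun x => x + 3 ∈ supp P23 M23).card = 28 := by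
  have h := cnt_eq P23 M23 vals23 3
  rw [diff23'] at h
  exact_mod_cast h

lemma three_ne_zero' : (3 : ZMod 127) ≠ 0 := by decide

lemma extreme_of (P M : ℕ)
    (ha : ∀ s : ZMod 127, (∑ x : ZMod 127, sq P M (x + s) * sq P M x) = if s = 0 then 64 else 0)
    (hv : ∀ x : ZMod 127, sq P M x = 0 ∨ sq P M x = 1 ∨ sq P M x = -1)
    (hc : (supp P M).card = 64) : IsExtreme (supp P M) := by
  refine ⟨Finset.card_pos.1 (by rw [hc]; norm_num), fun x => (sq P M x : ℂ), ?_, ?_, ?_⟩
  · intro x hx
    have h1 : sq P M x ≠ 0 := (Finset.mem_filter.1 hx).2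
    rcases hv x with h | h | h
    · exact absurd h h1
    · simp [h]
    · simp [h]
  · intro x hx
    have h1 : sq P M x = 0 := by
      by_contra h
      exact hx (Finset.mem_filter.2 ⟨Finset.mem_univ _, h⟩)
    simp [h1]
  · intro s
    have h1 : conv (fun x => (sq P M x : ℂ)) (adj fun x => (sq P M x : ℂ)) s =
        ((∑ x : ZMod 127, sq P M (x + s) * sq P M x : ℤ) : ℂ) := by
      unfold conv adj
      push_cast
      rw [← Equiv.sum_comp (Equiv.addRight s)]
      refine Finset.sum_congr rfl fun x _ => ?_
      simp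
    rw [h1, ha s, hc]
    split_ifs <;> simp

/-- There are a prime `p`, an integer `n` with `1 < n < p` and two extreme subsets of `ℤ/p` of
size `n` that are not equivalent; explicitly, `p = 127` and `n = 64`. -/
theorem result : Nat.Prime 127 ∧ ∃ E F : Finset (ZMod 127), E.card = 64 ∧ F.card = 64 ∧
    IsExtreme E ∧ IsExtreme F ∧ ¬ Equivalent E F := by
  refine ⟨by norm_num, supp P3 M3, supp P23 M23, card3, card23, extreme_of _ _ auto3 vals3 card3,
    extreme_of _ _ auto23 vals23 card23, ?_⟩
  rintro ⟨a, b, ha, hF⟩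
  have : Fact (Nat.Prime 127) := ⟨by norm_num⟩
  have hinj : Function.Injective (fun x : ZMod 127 => a * x + b) := by
    intro x y hxy
    exact mul_left_cancel₀ ha (add_right_cancel hxy)
  have h3 : a⁻¹ * 3 ≠ 0 := mul_ne_zero (inv_ne_zero ha) three_ne_zero'
  have key : (supp P23 M23).filter (fun x => x + 3 ∈ supp P23 M23) =
      ((supp P3 M3).filter fun x => x + a⁻¹ * 3 ∈ supp P3 M3).image (fun x => a * x + b) := by
    ext y
    rw [hF]
    simp only [Finset.mem_filter, Finset.mem_image]
    constructor
    · rintro ⟨⟨x, hx, rfl⟩, z, hz, hzx⟩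
      refine ⟨x, ⟨hx, ?_⟩, rfl⟩
      have : x + a⁻¹ * 3 = z := by
        apply mul_left_cancel₀ ha
        have h1 : a * (x + a⁻¹ * 3) = a * x + 3 := by
          rw [mul_add, ← mul_assoc, mul_inv_cancel₀ ha, one_mul]
        rw [h1]
        have h2 : a * z = a * x + 3 := by linear_combination hzx
        exact h2.symm
      rw [this]; exact hz
    · rintro ⟨x, ⟨hx, hx2⟩, rfl⟩
      refine ⟨⟨x, hx, rfl⟩, x + a⁻¹ * 3, hx2, ?_⟩
      rw [mul_add, ← mul_assoc, mul_inv_cancel₀ ha, one_mul]
      ring
  have h1 := diff23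
  rw [key, Finset.card_image_of_injective _ hinj, diff3 _ h3] at h1
  norm_num at h1

end Pool.Agent.Results.MP_6d480e_an.Mersenne
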